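import Pool.Agent.Lib.MP_8a52c3_lc.Neg.Defs

/-! A circuit with few negations is covered by few monotone circuits. -/

open Finset
open scoped BigOperators

namespace Pool.Agent.Lib.MP_8a52c3_lc.Neg

variable {ι κ : Type} {S : ℕ}

theorem Mon.mono {g : Fin S → (ι → Bool) → ℝ} (hg : Mon g) (v : Fin S) (x x' : ι → Bool)
    (h : ∀ i, x i = true → x' i = true) : g v x ≤ g v x' := by
  induction v using WellFoundedLT.induction with
  | ind v ih =>
  rcases hg v with ⟨a, ha⟩ | ⟨i, hi⟩ | ⟨u, w, hu, hw, φ, hφ, e⟩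
  · rw [ha, ha]
  · rw [hi, hi]
    by_cases h1 : x i = true
    · rw [if_pos h1, if_pos (h i h1)]
    · rw [if_neg h1]
      split_ifs <;> norm_num
  · rw [e, e]
    exact hφ _ _ _ _ (ih u hu) (ih w hw)

theorem cvA_subst {g : Fin S → (ι → Bool) → ℝ} {v : Fin S} (hg : MonGate g v)
    {σ : (κ → Bool) → ι → Bool} (hσ : Proj σ) : MonGate (fun v z => g v (σ z)) v := by
  rcases hg with ⟨a, ha⟩ | ⟨i, hi⟩ | ⟨u, w, hu, hw, φ, hφ, e⟩
  · exact Or.inl ⟨a, fun z => ha _⟩
  · rcases hσ i with ⟨c, hc⟩ | ⟨k, hk⟩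
    · exact Or.inl ⟨if c then 1 else 0, fun z => (hi _).trans (by rw [hc])⟩
    · exact Or.inr (Or.inl ⟨k, fun z => (hi _).trans (by rw [hk])⟩)
  · exact Or.inr (Or.inr ⟨u, w, hu, hw, φ, hφ, fun z => e _⟩)

theorem Mon.subst {g : Fin S → (ι → Bool) → ℝ} (hg : Mon g) {σ : (κ → Bool) → ι → Bool}
    (hσ : Proj σ) : Mon fun v z => g v (σ z) := fun v => cvA_subst (hg v) hσ

theorem Ngt.subst {T : Finset (Fin S)} {g : Fin S → (ι → Bool) → ℝ} (hg : Ngt T g)
    {σ : (κ → Bool) → ι → Bool} (hσ : Proj σ) : Ngt T fun v z => g v (σ z) := fun v =>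
  (hg v).imp (fun h => cvA_subst h hσ) fun ⟨h1, u, hu, e⟩ => ⟨h1, u, hu, fun _ => e _⟩

/-- The negations may be replaced by constants. -/
theorem cvA_replace (g : Fin S → (ι → Bool) → ℝ) (c : Fin S → ℝ) :
    ∃ G : Fin S → (ι → Bool) → ℝ, Mon G ∧
      ∀ x v, (∀ w, w ≤ v → ¬ MonGate g w → g w x = c w) → G v x = g v x := by
  have h1 : ∀ v : Fin S, ∃ Ψ : (∀ u, u < v → (ι → Bool) → ℝ) → (ι → Bool) → ℝ,
      ∀ G : Fin S → (ι → Bool) → ℝ, G v = Ψ (fun u _ => G u) → MonGate G v ∧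
        ∀ x, (¬ MonGate g v → g v x = c v) → (∀ u, u < v → G u x = g u x) → G v x = g v x := by
    intro v
    by_cases h : MonGate g v
    · rcases h with ⟨a, ha⟩ | ⟨i, hi⟩ | ⟨u, w, hu, hw, φ, hφ, e⟩
      · exact ⟨fun _ _ => a, fun G hG => ⟨Or.inl ⟨a, fun x => by rw [hG]⟩,
          fun x _ _ => by rw [hG, ha]⟩⟩
      · exact ⟨fun _ x => if x i then 1 else 0, fun G hG =>
          ⟨Or.inr (Or.inl ⟨i, fun x => by rw [hG]⟩), fun x _ _ => by rw [hG, hi]⟩⟩
      · exact ⟨fun R x => φ (R u hu x) (R w hw x), fun G hG =>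
          ⟨Or.inr (Or.inr ⟨u, w, hu, hw, φ, hφ, fun x => by rw [hG]⟩),
            fun x _ h => by rw [hG, e, ← h u hu, ← h w hw]⟩⟩
    · exact ⟨fun _ _ => c v, fun G hG => ⟨Or.inl ⟨c v, fun x => by rw [hG]⟩,
        fun x h1 _ => by rw [hG, h1 h]⟩⟩
  choose Ψ hΨ using h1
  have h2 := fun v => hΨ v _ (WellFounded.fix_eq (wellFounded_lt (α := Fin S)) Ψ v)
  refine ⟨_, fun v => (h2 v).1, fun x v => ?_⟩
  induction v using WellFoundedLT.induction with
  | ind v ih =>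
  exact fun h => (h2 v).2 x (h v le_rfl) fun u hu => ih u hu fun w hw => h w (hw.trans hu.le)

theorem cover {T : Finset (Fin S)} {g : Fin S → (ι → Bool) → ℝ} (hg : Ngt T g) (v0 : Fin S) :
    ∃ (G : Finset (Fin S) → Fin S → (ι → Bool) → ℝ) (r : Finset (Fin S) → Bool → Fin S),
      (∀ α, Mon (G α)) ∧
      ∀ x x' : ι → Bool, (∀ i, x i = true → x' i = true) → g v0 x ≤ 0 → 0 < g v0 x' →
        ∃ α ∈ T.powerset, ∃ β, G α (r α β) x ≤ 0 ∧ 0 < G α (r α β) x' := by
  classical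
  choose G hG hA using fun α : Finset (Fin S) => cvA_replace g fun v => if v ∈ α then 1 else 0
  have h1 : ∀ v, ∃ u, ¬ MonGate g v →
      v ∈ T ∧ u < v ∧ ∀ x, g v x = if g u x ≤ 0 then 1 else 0 := fun v => by
    rcases hg v with h | ⟨h, u, hu⟩
    · exact ⟨v, fun h' => absurd h h'⟩
    · exact ⟨u, fun _ => ⟨h, hu⟩⟩
  choose src hs using h1
  have h2 : ∀ (α : Finset (Fin S)) w x, ¬ MonGate g w → (w ∈ α ↔ g w x = 1) →
      g w x = if w ∈ α then 1 else 0 := fun α w x hw h => by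
    by_cases h3 : w ∈ α
    · rw [if_pos h3, h.1 h3]
    · have h4 := mt h.2 h3
      rw [if_neg h3]
      rw [(hs w hw).2.2 x] at h4 ⊢
      exact if_neg fun h5 => h4 (if_pos h5)
  refine ⟨G, fun α β => if β then v0 else if h : α.Nonempty then src (α.max' h) else v0, hG,
    fun x x' hx h0 h0' => ?_⟩
  by_cases h3 : ∃ w, ¬ MonGate g w ∧ g w x ≠ g w x'
  · obtain ⟨i, ⟨hi, hi'⟩, hmin⟩ := wellFounded_lt.has_min {w | ¬ MonGate g w ∧ g w x ≠ g w x'} h3
    obtain ⟨hT, hu, e⟩ := hs i hi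
    have h4 : (insert i (T.filter fun w => w < i ∧ g w x = 1)).max' (insert_nonempty _ _) = i := by
      refine le_antisymm (max'_le _ _ _ fun w hw => ?_) (le_max' _ _ (mem_insert_self _ _))
      rcases mem_insert.1 hw with rfl | hw
      · exact le_rfl
      · exact (mem_filter.1 hw).2.1.le
    have h5 : ∀ w, w ≤ src i → ¬ MonGate g w →
        g w x = if w ∈ insert i (T.filter fun w => w < i ∧ g w x = 1) then 1 else 0 :=
      fun w hw hw' => h2 _ w x hw' (by
        have h6 := hw.trans_lt hu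
        simp [h6.ne, h6, (hs w hw').1])
    have h6 := hA _ x _ h5
    have h7 := hA _ x' _ fun w hw hw' => (by_contra fun h =>
      hmin w ⟨hw', fun e => h e.symm⟩ (hw.trans_lt hu) : g w x' = g w x).trans (h5 w hw hw')
    have h8 := (hG (insert i (T.filter fun w => w < i ∧ g w x = 1))).mono (src i) x x' hx
    refine ⟨insert i (T.filter fun w => w < i ∧ g w x = 1),
      mem_powerset.2 (insert_subset hT (filter_subset _ _)), false, ?_⟩
    simp only [Bool.false_eq_true, if_false, dif_pos (insert_nonempty _ _), h4]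
    rw [h6, h7] at h8 ⊢
    rw [e, e] at hi'
    have h9 : 0 < g (src i) x' := not_le.1 fun h => hi' (by rw [if_pos h, if_pos (h8.trans h)])
    exact ⟨by_contra fun h => hi' (by rw [if_neg h, if_neg h9.not_ge]), h9⟩
  · have h5 : ∀ w, w ≤ v0 → ¬ MonGate g w →
        g w x = if w ∈ T.filter fun w => g w x = 1 then 1 else 0 :=
      fun w _ hw' => h2 _ w x hw' (by simp [(hs w hw').1])
    have h6 := hA _ x _ h5
    have h7 := hA _ x' _ fun w hw hw' => (by_contra fun h =>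
      h3 ⟨w, hw', fun e => h e.symm⟩ : g w x' = g w x).trans (h5 w hw hw')
    refine ⟨T.filter fun w => g w x = 1, mem_powerset.2 (filter_subset _ _), true, ?_⟩
    simp only [if_true]
    rw [h6, h7]
    exact ⟨h0, h0'⟩

end Pool.Agent.Lib.MP_8a52c3_lc.Neg
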