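import Pool.Agent.Lib.MP_8a52c3_lc.Neg.Cover

/-! The chain of blocks. -/

open Finset
open scoped BigOperators

namespace Pool.Agent.Lib.MP_8a52c3_lc.Neg

open Mono

/-- Overwrite block `j`. -/
def chA_upd {U : Type} {B : ℕ} (z : Fin B × U → Bool) (j : Fin B) (w : U → Bool) :
    Fin B × U → Bool := fun q => if q.1 = j then w q.2 else z q

theorem chA_proj {U : Type} {B : ℕ} (z : Fin B × U → Bool) (j : Fin B) :
    Proj (chA_upd z j) := by
  intro q
  by_cases h : q.1 = j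
  · exact Or.inr ⟨q.2, fun w => by simp [chA_upd, h]⟩
  · exact Or.inl ⟨z q, fun w => by simp [chA_upd, h]⟩

/-- The potential. -/
noncomputable def chA_pot {ι : Type} {S : ℕ} (T : Finset (Fin S))
    (G : Finset (Fin S) → Fin S → (ι → Bool) → ℝ) (r : Finset (Fin S) → Bool → Fin S)
    (z : ι → Bool) : ℝ := ∑ α ∈ T.powerset, ∑ β : Bool, ind (0 < G α (r α β) z)

theorem chA_pot_le {ι : Type} {S : ℕ} (T : Finset (Fin S))
    (G : Finset (Fin S) → Fin S → (ι → Bool) → ℝ) (r : Finset (Fin S) → Bool → Fin S)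
    (z : ι → Bool) : chA_pot T G r z ≤ 2 ^ (T.card + 1) := by
  unfold chA_pot
  calc _ ≤ ∑ _α ∈ T.powerset, ∑ _β : Bool, (1 : ℝ) :=
        sum_le_sum fun α _ => sum_le_sum fun β _ => ind_le_one _
    _ = _ := by simp [card_powerset, pow_succ]

theorem chA_pot_nonneg {ι : Type} {S : ℕ} (T : Finset (Fin S))
    (G : Finset (Fin S) → Fin S → (ι → Bool) → ℝ) (r : Finset (Fin S) → Bool → Fin S)
    (z : ι → Bool) : 0 ≤ chA_pot T G r z :=
  sum_nonneg fun _ _ => sum_nonneg fun _ _ => ind_nonneg _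

theorem chA_pot_jump {ι : Type} {S : ℕ} (T : Finset (Fin S))
    (G : Finset (Fin S) → Fin S → (ι → Bool) → ℝ) (r : Finset (Fin S) → Bool → Fin S)
    (hG : ∀ α, Mon (G α)) (x x' : ι → Bool) (hx : ∀ i, x i = true → x' i = true)
    (h : ∃ α ∈ T.powerset, ∃ β, G α (r α β) x ≤ 0 ∧ 0 < G α (r α β) x') :
    chA_pot T G r x + 1 ≤ chA_pot T G r x' := by
  obtain ⟨α, hα, β, ha, hb⟩ := h
  have hm : ∀ α β, 0 ≤ ind (0 < G α (r α β) x') - ind (0 < G α (r α β) x) := fun α β =>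
    sub_nonneg.2 (ind_mono fun h => h.trans_le ((hG α).mono _ _ _ hx))
  have h1 : (1 : ℝ) ≤ ∑ β : Bool, (ind (0 < G α (r α β) x') - ind (0 < G α (r α β) x)) := by
    refine le_trans ?_ (single_le_sum (fun β _ => hm α β) (mem_univ β))
    rw [ind_of hb, ind_of_not (not_lt.2 ha), sub_zero]
  have h2 := single_le_sum (f := fun α => ∑ β : Bool,
    (ind (0 < G α (r α β) x') - ind (0 < G α (r α β) x)))
    (fun α _ => sum_nonneg fun β _ => hm α β) hα
  simp only [sum_sub_distrib] at h1 h2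
  unfold chA_pot
  linarith

theorem chA_pot_key {U P Y ι : Type} [Fintype P] [Nonempty P] [Fintype Y] [Nonempty Y]
    (ps : P → U → Bool) (ng : Y → U → Bool) {S : ℕ} (τ : ℝ)
    (key : ∀ g : Fin S → (U → Bool) → ℝ, Mon g → ∀ v,
      𝔼 p, ind (0 < g v (ps p)) ≤ 𝔼 y, ind (0 < g v (ng y)) + τ)
    (T : Finset (Fin S)) (G : Finset (Fin S) → Fin S → (ι → Bool) → ℝ)
    (r : Finset (Fin S) → Bool → Fin S) (hG : ∀ α, Mon (G α)) (σ : (U → Bool) → ι → Bool)
    (hσ : Proj σ) :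
    (𝔼 p, chA_pot T G r (σ (ps p))) ≤ (𝔼 y, chA_pot T G r (σ (ng y))) + τ * 2 ^ (T.card + 1) := by
  unfold chA_pot
  simp only [expect_sum_comm]
  calc _ ≤ ∑ α ∈ T.powerset, ∑ β : Bool, ((𝔼 y, ind (0 < G α (r α β) (σ (ng y)))) + τ) :=
        sum_le_sum fun α _ => sum_le_sum fun β _ => key _ ((hG α).subst hσ) (r α β)
    _ = _ := by
        simp only [sum_add_distrib, sum_const, card_powerset, card_univ, Fintype.card_bool,
          nsmul_eq_mul]
        push_cast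
        ring

theorem chA_pick {Y : Type} [Fintype Y] [Nonempty Y] (f : Y → ℝ) (c : ℝ) (h : c ≤ 𝔼 y, f y) :
    ∃ y, c ≤ f y := by
  obtain ⟨y, -, hy⟩ := exists_max_image univ f univ_nonempty
  exact ⟨y, h.trans (ex_le fun y' => hy y' (mem_univ _))⟩

theorem chain {U P Y : Type} [Fintype P] [Nonempty P] [Fintype Y] [Nonempty Y]
    (ps : P → U → Bool) (ng : Y → U → Bool) (S B : ℕ) (τ : ℝ)
    (key : ∀ g : Fin S → (U → Bool) → ℝ, Mon g → ∀ v,
      𝔼 p, ind (0 < g v (ps p)) ≤ 𝔼 y, ind (0 < g v (ng y)) + τ)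
    (T : Finset (Fin S)) (hτ : τ * 2 ^ (T.card + 2) ≤ 1)
    (g : Fin S → (Fin B × U → Bool) → ℝ) (hg : Ngt T g) (v0 : Fin S)
    (h0 : ∀ z : Fin B × U → Bool,
      (∀ j, (∃ y, ∀ u, z (j, u) = ng y u) ∨ ∀ u, z (j, u) = false) → g v0 z ≤ 0)
    (h1 : ∀ z : Fin B × U → Bool, (∃ j p, ∀ u, z (j, u) = ps p u) → 0 < g v0 z) :
    B ≤ 2 ^ (T.card + 2) := by
  obtain ⟨G, r, hG, hc⟩ := cover hg v0
  have main : ∀ j : ℕ, j ≤ B → ∃ z : Fin B × U → Bool,
      (∀ j' : Fin B, ((j' : ℕ) < j → ∃ y, ∀ u, z (j', u) = ng y u) ∧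
        (j ≤ j' → ∀ u, z (j', u) = false)) ∧ (j : ℝ) / 2 ≤ chA_pot T G r z := by
    intro j
    induction j with
    | zero =>
      intro _
      exact ⟨fun _ => false, fun j' => ⟨fun h => absurd h (Nat.not_lt_zero _), fun _ _ => rfl⟩,
        by simpa using chA_pot_nonneg T G r _⟩
    | succ j ih =>
      intro hj
      obtain ⟨z, hz, hp⟩ := ih (by omega)
      have hle : ∀ w i, z i = true → chA_upd z ⟨j, hj⟩ w i = true := by
        rintro w ⟨a, u⟩ hi
        by_cases h : a = ⟨j, hj⟩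
        · subst h
          rw [(hz _).2 le_rfl u] at hi
          exact absurd hi (by simp)
        · simp [chA_upd, h, hi]
      have hz0 : g v0 z ≤ 0 := h0 z fun j' => by
        rcases lt_or_ge (j' : ℕ) j with h | h
        · exact Or.inl ((hz j').1 h)
        · exact Or.inr ((hz j').2 h)
      have hjump : ∀ p, chA_pot T G r z + 1 ≤ chA_pot T G r (chA_upd z ⟨j, hj⟩ (ps p)) :=
        fun p => chA_pot_jump T G r hG _ _ (hle _) (hc _ _ (hle _) hz0
          (h1 _ ⟨⟨j, hj⟩, p, fun u => by simp [chA_upd]⟩))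
      have e1 : chA_pot T G r z + 1 ≤ 𝔼 p, chA_pot T G r (chA_upd z ⟨j, hj⟩ (ps p)) :=
        (ex_const _).symm.trans_le (ex_mono hjump)
      have e2 := chA_pot_key ps ng τ key T G r hG _ (chA_proj z ⟨j, hj⟩)
      have e3 : τ * 2 ^ (T.card + 1) ≤ 1 / 2 := by
        rw [pow_succ _ (T.card + 1)] at hτ
        linarith
      obtain ⟨y, hy⟩ := chA_pick (fun y => chA_pot T G r (chA_upd z ⟨j, hj⟩ (ng y)))
        (((j + 1 : ℕ) : ℝ) / 2) (by push_cast; linarith)
      refine ⟨_, fun j' => ⟨fun h => ?_, fun h u => ?_⟩, hy⟩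
      · by_cases e : j' = ⟨j, hj⟩
        · exact ⟨y, fun u => by simp [chA_upd, e]⟩
        · have : (j' : ℕ) ≠ j := fun k => e (Fin.ext k)
          obtain ⟨y', hy'⟩ := (hz j').1 (by omega)
          exact ⟨y', fun u => by simp [chA_upd, e, hy']⟩
      · have e : j' ≠ ⟨j, hj⟩ := fun k => by
          rw [k] at h
          simp at h
        simp [chA_upd, e, (hz j').2 (by omega) u]
  obtain ⟨z, -, hz⟩ := main B le_rfl
  have := chA_pot_le T G r z
  have h2 : (B : ℝ) ≤ 2 ^ (T.card + 2) := by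
    rw [pow_succ _ (T.card + 1)]
    linarith
  exact_mod_cast h2

end Pool.Agent.Lib.MP_8a52c3_lc.Neg
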