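import Pool.Agent.Lib.MP_8a52c3_lc.Mono.Basic

/-! Definitions for the lower bound on circuits with few negations. -/

open Finset
open scoped BigOperators

namespace Pool.Agent.Lib.MP_8a52c3_lc.Neg

open Mono

/-- Gate `v` is a constant, an input, or a monotone function of two earlier gates. -/
def MonGate {ι : Type} {S : ℕ} (g : Fin S → (ι → Bool) → ℝ) (v : Fin S) : Prop :=
  (∃ a, ∀ x, g v x = a) ∨ (∃ i, ∀ x, g v x = if x i then 1 else 0) ∨
    ∃ u w, u < v ∧ w < v ∧ ∃ φ : ℝ → ℝ → ℝ,
      (∀ a a' b b', a ≤ a' → b ≤ b' → φ a b ≤ φ a' b') ∧ ∀ x, g v x = φ (g u x) (g w x)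

/-- A monotone real circuit. -/
def Mon {ι : Type} {S : ℕ} (g : Fin S → (ι → Bool) → ℝ) : Prop := ∀ v, MonGate g v

/-- A circuit whose negations are among the gates of `T`. -/
def Ngt {ι : Type} {S : ℕ} (T : Finset (Fin S)) (g : Fin S → (ι → Bool) → ℝ) : Prop :=
  ∀ v, MonGate g v ∨ (v ∈ T ∧ ∃ u, u < v ∧ ∀ x, g v x = if g u x ≤ 0 then 1 else 0)

/-- Every coordinate of `σ` is a constant or a coordinate of its argument. -/
def Proj {ι κ : Type} (σ : (κ → Bool) → ι → Bool) : Prop :=
  ∀ i, (∃ c, ∀ z, σ z i = c) ∨ ∃ k, ∀ z, σ z i = z k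

section Block

variable {E X : Type} {n : ℕ}

/-- Equations of one block: a vertex, eight points and a right side. -/
abbrev Eqn (E X : Type) : Type := E × (Fin 8 → X) × Bool

/-- Value of the left side of an equation. -/
def par (S : E → Fin 8 → Fin n) (y : Fin n → X → Bool) (u : E) (a : Fin 8 → X) : Bool :=
  decide (Odd (univ.filter fun c : Fin 8 => y (S u c) (a c) = true).card)

/-- The unsatisfiable system given by points `p.1` and a shift `p.2`. -/
def pos [DecidableEq X] (S : E → Fin 8 → Fin n) (b : E → Bool)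
    (p : (Fin n → X) × (Fin n → X → Bool)) (k : Eqn E X) : Bool :=
  decide (k.2.1 = fun c => p.1 (S k.1 c)) && (k.2.2 == xor (b k.1) (par S p.2 k.1 k.2.1))

/-- The system of all equations that hold at `y`. -/
def neg (S : E → Fin 8 → Fin n) (y : Fin n → X → Bool) (k : Eqn E X) : Bool :=
  k.2.2 == par S y k.1 k.2.1

end Block

/-- Equation number `i` at scale `q`; `H` bounds the number of blocks. -/
def rowT (M H q i : ℕ) : List ℕ × Bool :=
  ((rowN M q (i % (q ^ 2 * M ^ 8 * 2) / 2)).1.map fun v => v * H + i / (q ^ 2 * M ^ 8 * 2),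
    decide (i % (q ^ 2 * M ^ 8 * 2) % 2 = 1))

/-- The equations selected by the word `w`: the first half selects scales, the second half
selects equations. -/
def rowsT (M : ℕ) (w : List Bool) : List (List ℕ × Bool) :=
  ((List.range (w.length / 2 * (w.length / 2))).filter fun p =>
      w.getD (p / (w.length / 2)) false && w.getD (w.length / 2 + p % (w.length / 2)) false).map
    fun p => rowT M (w.length / 2) (p / (w.length / 2)) (p % (w.length / 2))

open Classical in
/-- The hard language: the selected equations are unsatisfiable. -/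
noncomputable def hardT (M : ℕ) (w : List Bool) : Bool := decide (¬ XorSat (rowsT M w))

end Pool.Agent.Lib.MP_8a52c3_lc.Neg
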