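import Pool.Agent.Lib.MP_8a52c3_lc.Neg.Defs

/-! A sampling lemma, and dags of triangles on an arbitrary finite set of nodes. -/

open Finset
open scoped BigOperators

namespace Pool.Agent.Lib.MP_8a52c3_lc.Neg

open Mono

/-- One sample: the exponential moment of a bounded function with mean at least `τ`. -/
theorem hfA_one {Γ : Type} [Fintype Γ] [Nonempty Γ] (f : Γ → ℝ) (τ : ℝ) (hτ0 : 0 < τ)
    (hf : ∀ γ, |f γ| ≤ 1) (hτ : τ ≤ 𝔼 γ, f γ) :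
    𝔼 γ, Real.exp (-(τ / 2) * f γ) ≤ Real.exp (-(τ ^ 2 / 4)) := by
  have hτ1 : τ ≤ 1 := hτ.trans (ex_le fun γ => (abs_le.1 (hf γ)).2)
  have h1 : ∀ γ, Real.exp (-(τ / 2) * f γ) ≤ (1 + τ ^ 2 / 4) - τ / 2 * f γ := by
    intro γ
    have hab := abs_le.1 (hf γ)
    have hu : |-(τ / 2) * f γ| ≤ 1 := by
      rw [abs_le]
      constructor <;> nlinarith [hab.1, hab.2]
    have h2 := (abs_le.1 (Real.abs_exp_sub_one_sub_id_le hu)).2
    have h3 : f γ ^ 2 ≤ 1 := by nlinarith [hab.1, hab.2]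
    have h4 : (-(τ / 2) * f γ) ^ 2 ≤ τ ^ 2 / 4 := by
      have : (-(τ / 2) * f γ) ^ 2 = τ ^ 2 / 4 * f γ ^ 2 := by ring
      rw [this]
      nlinarith [sq_nonneg τ]
    linarith
  have h5 : 𝔼 γ, ((1 + τ ^ 2 / 4) - τ / 2 * f γ) = (1 + τ ^ 2 / 4) - τ / 2 * 𝔼 γ, f γ := by
    rw [expect_sub_distrib, ex_const, ← mul_expect]
  have h6 := Real.add_one_le_exp (-(τ ^ 2 / 4))
  have h7 := ex_mono h1
  rw [h5] at h7
  nlinarith

/-- Independent samples. -/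
theorem hfA_many {Γ : Type} [Fintype Γ] [Nonempty Γ] (f : Γ → ℝ) (τ : ℝ) (hτ0 : 0 < τ)
    (hf : ∀ γ, |f γ| ≤ 1) (hτ : τ ≤ 𝔼 γ, f γ) (m : ℕ) :
    𝔼 γ : Fin m → Γ, Real.exp (-(τ / 2) * ∑ j, f (γ j)) ≤ Real.exp (-(m * τ ^ 2 / 4)) := by
  have h1 : ∀ γ : Fin m → Γ,
      Real.exp (-(τ / 2) * ∑ j, f (γ j)) = ∏ j, Real.exp (-(τ / 2) * f (γ j)) := by
    intro γ
    rw [mul_sum, Real.exp_sum]
  simp only [h1]
  rw [ex_pi_prod (fun (_ : Fin m) (a : Γ) => Real.exp (-(τ / 2) * f a))]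
  rw [prod_const, card_univ, Fintype.card_fin]
  have h2 : Real.exp (-(m * τ ^ 2 / 4)) = Real.exp (-(τ ^ 2 / 4)) ^ m := by
    rw [← Real.exp_nat_mul]
    congr 1
    ring
  rw [h2]
  exact pow_le_pow_left₀ (ex_nonneg fun _ => (Real.exp_pos _).le) (hfA_one f τ hτ0 hf hτ) m

theorem hoeff {Γ I : Type} [Fintype Γ] [Nonempty Γ] [Fintype I] (d : I → Γ → ℝ) (τ : ℝ)
    (hτ0 : 0 < τ) (hd : ∀ i γ, |d i γ| ≤ 1) (hτ : ∀ i, τ ≤ 𝔼 γ, d i γ) (m : ℕ)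
    (hm : (Fintype.card I : ℝ) < Real.exp (m * τ ^ 2 / 4)) :
    ∃ γ : Fin m → Γ, ∀ i, 0 < ∑ j, d i (γ j) := by
  by_contra hcon
  push Not at hcon
  have h1 : ∀ γ : Fin m → Γ, (1 : ℝ) ≤ ∑ i, Real.exp (-(τ / 2) * ∑ j, d i (γ j)) := by
    intro γ
    obtain ⟨i, hi⟩ := hcon γ
    have h2 : (1 : ℝ) ≤ Real.exp (-(τ / 2) * ∑ j, d i (γ j)) := by
      apply Real.one_le_exp
      nlinarith
    exact h2.trans (single_le_sum (f := fun i => Real.exp (-(τ / 2) * ∑ j, d i (γ j)))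
      (fun _ _ => (Real.exp_pos _).le) (mem_univ i))
  have h3 := ex_mono h1
  rw [ex_const, expect_sum_comm] at h3
  have h4 : ∑ i, 𝔼 γ : Fin m → Γ, Real.exp (-(τ / 2) * ∑ j, d i (γ j)) ≤
      ∑ _i : I, Real.exp (-(m * τ ^ 2 / 4)) :=
    sum_le_sum fun i _ => hfA_many (d i) τ hτ0 (hd i) (hτ i) m
  rw [sum_const, card_univ, nsmul_eq_mul, Real.exp_neg] at h4
  have h5 := Real.exp_pos (m * τ ^ 2 / 4)
  have h6 : (Fintype.card I : ℝ) * (Real.exp (m * τ ^ 2 / 4))⁻¹ < 1 := by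
    rw [← div_eq_mul_inv, div_lt_one h5]
    exact hm
  linarith

theorem dag_of_rank {n : ℕ} {X J : Type} [Fintype X] [DecidableEq X] [Fintype J]
    (σ : (Fin n → Bool) → ℝ) (rk : J → ℕ) (T : J → (Fin n → X) → (Fin n → X → Bool) → Prop)
    (htri : ∀ v, Tri (T v))
    (hstep : ∀ v, (∀ x, fr σ x (fun y => ind (T v x y)) = 0) ∨
      ∃ u w, rk u < rk v ∧ rk w < rk v ∧ ∀ x y, T v x y → T u x y ∨ T w x y)
    (hroot : ∃ v, ∀ x y, T v x y) :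
    ∃ T' : Fin (Fintype.card J) → (Fin n → X) → (Fin n → X → Bool) → Prop, IsDag σ T' := by
  let e0 : Fin (Fintype.card J) ≃ J := (Fintype.equivFin J).symm
  let e : Fin (Fintype.card J) ≃ J := (Tuple.sort (rk ∘ e0)).trans e0
  have hmono : Monotone fun i => rk (e i) := Tuple.monotone_sort (rk ∘ e0)
  have hlt : ∀ (u : J) (v : Fin (Fintype.card J)), rk u < rk (e v) → e.symm u < v := by
    intro u v h
    by_contra hc
    have h2 : rk (e v) ≤ rk (e (e.symm u)) := hmono (not_lt.1 hc)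
    rw [Equiv.apply_symm_apply] at h2
    omega
  refine ⟨fun v => T (e v), fun v => htri _, fun v => ?_, ?_⟩
  · rcases hstep (e v) with h | ⟨u, w, hu, hw, h⟩
    · exact Or.inl h
    · refine Or.inr ⟨e.symm u, e.symm w, hlt u v hu, hlt w v hw, fun x y hxy => ?_⟩
      simpa only [Equiv.apply_symm_apply] using h x y hxy
  · obtain ⟨v, hv⟩ := hroot
    exact ⟨e.symm v, fun x y => by simpa only [Equiv.apply_symm_apply] using hv x y⟩

end Pool.Agent.Lib.MP_8a52c3_lc.Neg
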