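import Pool.Agent.Lib.MP_8a52c3_lc.Neg.Hoeff

/-! Small monotone circuits have no advantage on one block. -/

open Finset
open scoped BigOperators

namespace Pool.Agent.Lib.MP_8a52c3_lc.Neg

open Mono

theorem kyA_latin (X : Type) [Fintype X] [Nonempty X] :
    ∃ sh : X → Equiv.Perm X, ∀ x, Function.Bijective fun s => sh s x := by
  have : NeZero (Fintype.card X) := ⟨Fintype.card_ne_zero⟩
  let : AddCommGroup X := (Fintype.equivFin X).addCommGroup
  exact ⟨fun s => Equiv.addLeft s, fun x => (Equiv.addRight x).bijective⟩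

theorem kyA_odd (f f' : Fin 8 → Bool) :
    decide (Odd (univ.filter fun c => xor (f c) (f' c) = true).card) =
      xor (decide (Odd (univ.filter fun c => f c = true).card))
        (decide (Odd (univ.filter fun c => f' c = true).card)) := by
  have h : (univ.filter fun c => xor (f c) (f' c) = true).card +
      2 * (univ.filter fun c => (f c && f' c) = true).card =
      (univ.filter fun c => f c = true).card + (univ.filter fun c => f' c = true).card := by
    simp only [card_filter, mul_sum, ← sum_add_distrib]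
    refine sum_congr rfl fun c _ => ?_
    cases f c <;> cases f' c <;> simp
  revert h
  generalize (univ.filter fun c => xor (f c) (f' c) = true).card = a
  generalize (univ.filter fun c => (f c && f' c) = true).card = d
  generalize (univ.filter fun c => f c = true).card = p
  generalize (univ.filter fun c => f' c = true).card = p'
  intro h
  rcases Nat.mod_two_eq_zero_or_one p with h1 | h1 <;>
    rcases Nat.mod_two_eq_zero_or_one p' with h2 | h2 <;>
    simp only [Nat.odd_iff, h1, h2] <;> simp <;> omega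

theorem kyA_leaf {E X : Type} [DecidableEq X] {n : ℕ} (S : E → Fin 8 → Fin n) (b : E → Bool)
    (π : Fin n → Equiv.Perm X) (y0 : Fin n → X → Bool) (x : Fin n → X) (k : Eqn E X)
    (hk : pos S b (fun j => π j (x j), y0) k = true) (y : Fin n → X → Bool) :
    neg S (fun j a => xor (y0 j a) (y j ((π j).symm a))) k = false ↔ Viol S b k.1 (gad x y) := by
  obtain ⟨u, a, β⟩ := k
  simp only [pos, Bool.and_eq_true, decide_eq_true_eq, beq_iff_eq] at hk
  obtain ⟨rfl, rfl⟩ := hk
  simp only [neg, par, Viol, gad, kyA_odd, Equiv.symm_apply_apply]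
  generalize decide (Odd (univ.filter fun c =>
    y0 (S u c) (π (S u c) (x (S u c))) = true).card) = c0
  by_cases h : Odd (univ.filter fun c => y (S u c) (x (S u c)) = true).card <;>
    cases b u <;> cases c0 <;> simp [h]

theorem kyA_dag {X : Type} [Fintype X] [DecidableEq X] {n m s : ℕ} (σ : (Fin n → Bool) → ℝ)
    (Gp : Fin m → Fin s → (Fin n → X) → ℝ) (Gm : Fin m → Fin s → (Fin n → X → Bool) → ℝ)
    (hstep : ∀ i v, (∀ x, fr σ x (fun y => ind (Gm i v y < Gp i v x)) = 0) ∨
      ∃ u w, u < v ∧ w < v ∧ ∀ x y, Gm i v y < Gp i v x →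
        Gm i u y < Gp i u x ∨ Gm i w y < Gp i w x) (v : Fin s)
    (hroot : ∀ x y, 0 < ∑ i, (ind (0 < Gp i v x) - ind (0 < Gm i v y))) :
    ∃ T : Fin (m * s + (m + 1)) → (Fin n → X) → (Fin n → X → Bool) → Prop, IsDag σ T := by
  let ap : (Fin n → X) → ℕ → ℝ := fun x i => if h : i < m then ind (0 < Gp ⟨i, h⟩ v x) else 0
  let am : (Fin n → X → Bool) → ℕ → ℝ := fun y i =>
    if h : i < m then ind (0 < Gm ⟨i, h⟩ v y) else 0
  let Hp : (Fin m × Fin s) ⊕ Fin (m + 1) → (Fin n → X) → ℝ :=
    Sum.elim (fun p => Gp p.1 p.2) fun j x => ∑ i ∈ range j, ap x i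
  let Hm : (Fin m × Fin s) ⊕ Fin (m + 1) → (Fin n → X → Bool) → ℝ :=
    Sum.elim (fun p => Gm p.1 p.2) fun j y => ∑ i ∈ range j, am y i
  have h := dag_of_rank σ
    (Sum.elim (fun p : Fin m × Fin s => (p.2 : ℕ)) fun j : Fin (m + 1) => s + j)
    (fun a x y => Hm a y < Hp a x) ?_ ?_ ⟨Sum.inr (Fin.last m), fun x y => ?_⟩
  · have hc : Fintype.card ((Fin m × Fin s) ⊕ Fin (m + 1)) = m * s + (m + 1) := by simp
    rwa [hc] at h
  · intro a x x' y y' h1 h2
    by_contra hcon
    push Not at hcon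
    linarith [hcon.1, hcon.2]
  · rintro (⟨i, w⟩ | j)
    · rcases hstep i w with h | ⟨u, u', hu, hu', h⟩
      · exact Or.inl h
      · exact Or.inr ⟨Sum.inl (i, u), Sum.inl (i, u'), hu, hu', h⟩
    · refine Fin.cases (Or.inl fun x => ?_) (fun j => Or.inr ?_) j
      · have : ∀ y, ind (Hm (Sum.inr 0) y < Hp (Sum.inr 0) x) = 0 := fun y =>
          ind_of_not (by simp [Hm, Hp])
        simp only [this, fr_zero]
      · refine ⟨Sum.inr j.castSucc, Sum.inl (j, v), by simp, ?_, fun x y h => ?_⟩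
        · have := v.2
          simp only [Sum.elim_inl, Sum.elim_inr]
          omega
        · by_contra hcon
          push Not at hcon
          have h1 : ind (0 < Gp j v x) ≤ ind (0 < Gm j v y) :=
            ind_mono fun h0 => h0.trans_le hcon.2
          have h2 := hcon.1
          simp only [Hm, Hp, Sum.elim_inr, Fin.val_succ, sum_range_succ, Fin.val_castSucc] at h h2
          simp only [ap, am, j.2, dif_pos, Fin.eta] at h h2
          linarith
  · have h := hroot x y
    rw [sum_sub_distrib, sub_pos] at h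
    simp only [Hm, Hp, Sum.elim_inr, Fin.val_last, sum_range, ap, am, Fin.is_lt, dif_pos, Fin.eta]
    exact h

theorem kyA_card (M n : ℕ) (hM : 0 < M) (hn : 0 < n) :
    ((M ^ n * (2 ^ M) ^ n : ℕ) : ℝ) < Real.exp (2 * n * M) := by
  have h1 : M ^ n * (2 ^ M) ^ n ≤ 2 ^ (2 * n * M) := by
    calc M ^ n * (2 ^ M) ^ n ≤ (2 ^ M) ^ n * (2 ^ M) ^ n :=
          Nat.mul_le_mul_right _ (Nat.pow_le_pow_left Nat.lt_two_pow_self.le n)
      _ = 2 ^ (2 * n * M) := by rw [← pow_mul, ← pow_add]; congr 1; ring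
  have h2 : (2 : ℝ) < Real.exp 1 := by linarith [Real.add_one_lt_exp (one_ne_zero (α := ℝ))]
  calc ((M ^ n * (2 ^ M) ^ n : ℕ) : ℝ) ≤ (2 : ℝ) ^ (2 * n * M) := by exact_mod_cast h1
    _ < Real.exp 1 ^ (2 * n * M) := pow_lt_pow_left₀ h2 zero_le_two (by positivity)
    _ = Real.exp (2 * n * M) := by rw [Real.exp_one_pow]; push_cast; rfl

theorem key {E X : Type} [Fintype X] [DecidableEq X] [Nonempty X] {n : ℕ} (hn : 0 < n)
    (S : E → Fin 8 → Fin n) (b : E → Bool) (σ : (Fin n → Bool) → ℝ)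
    (hσ : ∀ u, 𝔼 z, σ z * ind (Viol S b u z) = 0) (Λ : ℝ)
    (hcore : ∀ (s : ℕ) (T : Fin s → (Fin n → X) → (Fin n → X → Bool) → Prop), IsDag σ T →
      Λ ≤ 4 * s)
    (s K : ℕ) (hK : 0 < K)
    (hs : 4 * ((8 * n * Fintype.card X * K ^ 2 + 1 : ℕ) : ℝ) * (s + 1) < Λ)
    (g : Fin s → (Eqn E X → Bool) → ℝ) (hg : Mon g) (v : Fin s) :
    𝔼 p, ind (0 < g v (pos S b p)) ≤ 𝔼 y, ind (0 < g v (neg S y)) + 1 / (K : ℝ) := by
  by_contra hcon
  push Not at hcon
  obtain ⟨sh, hsh⟩ := kyA_latin X
  let P : (Fin n → X) × (Fin n → X → Bool) → (Fin n → X) → Eqn E X → Bool := fun γ x =>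
    pos S b (fun j => sh (γ.1 j) (x j), γ.2)
  let Q : (Fin n → X) × (Fin n → X → Bool) → (Fin n → X → Bool) → Eqn E X → Bool := fun γ y =>
    neg S fun j a => xor (γ.2 j a) (y j ((sh (γ.1 j)).symm a))
  have hP : ∀ x, 𝔼 γ, ind (0 < g v (P γ x)) = 𝔼 p, ind (0 < g v (pos S b p)) := fun x =>
    ex_equiv (Equiv.prodCongr (Equiv.piCongrRight fun j => Equiv.ofBijective _ (hsh (x j)))
      (Equiv.refl _)) fun p => ind (0 < g v (pos S b p))
  have hQ : ∀ y, 𝔼 γ, ind (0 < g v (Q γ y)) = 𝔼 y, ind (0 < g v (neg S y)) := fun y => by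
    rw [ex_prod, ← ex_const (α := Fin n → X) (𝔼 y, ind (0 < g v (neg S y)))]
    refine expect_congr rfl fun t _ => ?_
    have hinv : Function.Involutive fun (y0 : Fin n → X → Bool) j a =>
        xor (y0 j a) (y j ((sh (t j)).symm a)) := fun y0 => by
      funext j a
      simp
    exact ex_equiv hinv.toPerm fun y => ind (0 < g v (neg S y))
  have hK' : (0 : ℝ) < K := by exact_mod_cast hK
  obtain ⟨γ, hγ⟩ := hoeff (I := (Fin n → X) × (Fin n → X → Bool))
    (fun i γ => ind (0 < g v (P γ i.1)) - ind (0 < g v (Q γ i.2))) (1 / K) (by positivity)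
    (fun i γ => by
      rw [abs_le]
      constructor <;> linarith [ind_nonneg (0 < g v (P γ i.1)), ind_le_one (0 < g v (P γ i.1)),
        ind_nonneg (0 < g v (Q γ i.2)), ind_le_one (0 < g v (Q γ i.2))])
    (fun i => by rw [expect_sub_distrib, hP, hQ]; linarith) (8 * n * Fintype.card X * K ^ 2)
    (by
      have h1 : ((8 * n * Fintype.card X * K ^ 2 : ℕ) : ℝ) * (1 / K) ^ 2 / 4 =
          2 * n * Fintype.card X := by
        push_cast
        field_simp
        ring
      rw [h1]
      have h2 := kyA_card (Fintype.card X) n Fintype.card_pos hn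
      simpa using h2)
  refine (kyA_dag σ (fun i w x => g w (P (γ i) x)) (fun i w y => g w (Q (γ i) y))
    (fun i w => ?_) v fun x y => hγ (x, y)).elim fun T hT => ?_
  swap
  · have h1 := hcore _ T hT
    generalize 8 * n * Fintype.card X * K ^ 2 = m at h1 hs
    push_cast at h1 hs
    have h2 : (0 : ℝ) ≤ s := Nat.cast_nonneg s
    nlinarith
  rcases hg w with ⟨a, ha⟩ | ⟨k, hk⟩ | ⟨u, u', hu, hu', φ, hφ, hw⟩
  · left
    intro x
    have : ∀ y, ind (g w (Q (γ i) y) < g w (P (γ i) x)) = 0 := fun y =>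
      ind_of_not (by rw [ha, ha]; exact lt_irrefl a)
    simp only [this, fr_zero]
  · left
    intro x
    by_cases hx : P (γ i) x k = true
    · have : ∀ y, ind (g w (Q (γ i) y) < g w (P (γ i) x)) = ind (Viol S b k.1 (gad x y)) := by
        intro y
        refine ind_congr ?_
        rw [← kyA_leaf S b (fun j => sh ((γ i).1 j)) (γ i).2 x k hx y, hk, hk, hx]
        change _ ↔ Q (γ i) y k = false
        cases Q (γ i) y k <;> simp
      simp only [fr, this]
      exact (ex_gad x fun z => σ z * ind (Viol S b k.1 z)).trans (hσ k.1)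
    · have : ∀ y, ind (g w (Q (γ i) y) < g w (P (γ i) x)) = 0 := by
        intro y
        refine ind_of_not ?_
        rw [hk, hk, if_neg hx]
        cases Q (γ i) y k <;> simp
      simp only [this, fr_zero]
  · refine Or.inr ⟨u, u', hu, hu', fun x y h => ?_⟩
    by_contra hc
    push Not at hc
    rw [hw, hw] at h
    exact absurd (hφ _ _ _ _ hc.1 hc.2) (not_le.2 h)

end Pool.Agent.Lib.MP_8a52c3_lc.Neg
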