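import Pool.Agent.Lib.MP_8a52c3_lc.Neg.Defs
import Pool.Agent.Lib.MP_8a52c3_lc.Mono.Lang

/-! The blocks inside the hard language. -/

open Finset
open scoped BigOperators

namespace Pool.Agent.Lib.MP_8a52c3_lc.Neg

open Mono

theorem lgA_mem {M N : ℕ} (w : ℕ → Bool) (r : List ℕ × Bool) :
    r ∈ rowsT M (List.ofFn fun k : Fin N => w k) ↔
      ∃ q i, q < N / 2 ∧ i < N / 2 ∧ w q = true ∧ w (N / 2 + i) = true ∧
        rowT M (N / 2) q i = r := by
  unfold rowsT
  rw [List.length_ofFn, List.mem_map]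
  have key : ∀ i < N, (List.ofFn fun k : Fin N => w k).getD i false = w i := by
    intro i hi
    rw [List.getD_eq_getElem _ _ (by rw [List.length_ofFn]; exact hi), List.getElem_ofFn]
  constructor
  · rintro ⟨p, hp, rfl⟩
    rw [List.mem_filter, List.mem_range, Bool.and_eq_true] at hp
    have h0 : 0 < N / 2 := Nat.pos_of_ne_zero fun h => by simp [h] at hp
    have h1 : p / (N / 2) < N / 2 := Nat.div_lt_of_lt_mul hp.1
    have h2 : p % (N / 2) < N / 2 := Nat.mod_lt _ h0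
    rw [key _ (by omega), key _ (by omega)] at hp
    exact ⟨_, _, h1, h2, hp.2.1, hp.2.2, rfl⟩
  · rintro ⟨q, i, h1, h2, h3, h4, rfl⟩
    have e1 : (q * (N / 2) + i) / (N / 2) = q := by
      rw [add_comm, Nat.add_mul_div_right _ _ (by omega), Nat.div_eq_of_lt h2, zero_add]
    have e2 : (q * (N / 2) + i) % (N / 2) = i := Nat.mul_add_mod_of_lt h2
    refine ⟨q * (N / 2) + i, ?_, by rw [e1, e2]⟩
    rw [List.mem_filter, List.mem_range, Bool.and_eq_true, e1, e2, key _ (by omega),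
      key _ (by omega)]
    exact ⟨by nlinarith, h3, h4⟩

theorem lgA_count {q n M : ℕ} [NeZero q] (hM : 0 < M) (e : (ZMod q × ZMod q) × Fin 4 ≃ Fin n)
    {i : ℕ} (hi : i < q ^ 2 * M ^ 8) (y : ℕ → Bool) :
    (rowN M q i).1.countP y = (univ.filter fun c : Fin 8 =>
      y (langNum (e.symm (tsS e (langVtx M q i) c)) * M + langDig hM i c) = true).card := by
  obtain ⟨h1, h2⟩ := lang_vtx_val hi
  unfold rowN
  rw [lang_count]
  congr 1
  refine Finset.filter_congr fun c _ => ?_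
  rw [← lang_edge, h1, h2]
  rfl

theorem lgA_row {q n M : ℕ} [NeZero q] (hM : 0 < M) (e : (ZMod q × ZMod q) × Fin 4 ≃ Fin n)
    (H i : ℕ) (y : ℕ → Bool) :
    ((rowT M H q i).1.countP y % 2 = 1 ↔ (rowT M H q i).2 = true) ↔
      (Odd (univ.filter fun c : Fin 8 =>
        y ((langNum (e.symm (tsS e (langVtx M q (i % (q ^ 2 * M ^ 8 * 2) / 2)) c)) * M +
          langDig hM (i % (q ^ 2 * M ^ 8 * 2) / 2) c) * H + i / (q ^ 2 * M ^ 8 * 2)) = true).card ↔
        i % (q ^ 2 * M ^ 8 * 2) % 2 = 1) := by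
  have hq : 0 < q := Nat.pos_of_ne_zero (NeZero.ne q)
  have h1 : i % (q ^ 2 * M ^ 8 * 2) < q ^ 2 * M ^ 8 * 2 := Nat.mod_lt _ (by positivity)
  unfold rowT
  rw [List.countP_map, lgA_count hM e (by omega), decide_eq_true_iff, Nat.odd_iff]
  rfl

theorem lgA_idx {q M : ℕ} [NeZero q] (hM : 0 < M) (u : ZMod q × ZMod q) (a : Fin 8 → Fin M) :
    ∃ i < q ^ 2 * M ^ 8, langVtx M q i = u ∧ langDig hM i = a := by
  have hq0 : 0 < q := Nat.pos_of_ne_zero (NeZero.ne q)
  obtain ⟨d, hd⟩ : ∃ d : Fin (M ^ 8), ∀ c : Fin 8, (d : ℕ) / M ^ (c : ℕ) % M = a c :=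
    ⟨finFunctionFinEquiv a, fun c => by
      rw [← finFunctionFinEquiv_symm_apply_val, Equiv.symm_apply_apply]⟩
  obtain ⟨i, hi⟩ : ∃ i, i = (u.1.val * q + u.2.val) * M ^ 8 + d := ⟨_, rfl⟩
  have hP : 0 < M ^ 8 := by positivity
  have i1 : i / M ^ 8 = u.1.val * q + u.2.val := by
    rw [hi, add_comm, Nat.add_mul_div_right _ _ hP, Nat.div_eq_of_lt d.2, zero_add]
  have i2 : i % M ^ 8 = d := by rw [hi, Nat.mul_add_mod_of_lt d.2]
  refine ⟨i, ?_, ?_, funext fun c => Fin.ext ?_⟩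
  · rw [← Nat.div_lt_iff_lt_mul hP, i1]
    have a1 := ZMod.val_lt u.1
    have a2 := ZMod.val_lt u.2
    nlinarith
  · unfold langVtx
    rw [i1, Nat.mul_add_mod_of_lt (ZMod.val_lt u.2), add_comm, Nat.add_mul_div_right _ _ hq0,
      Nat.div_eq_of_lt (ZMod.val_lt u.2), zero_add, ZMod.natCast_zmod_val,
      ZMod.natCast_zmod_val]
  · show i % M ^ 8 / M ^ (c : ℕ) % M = _
    rw [i2, hd]

theorem lgA_xor {ι : Type} (s : Finset ι) (f g : ι → Bool) :
    Odd (s.filter fun c => xor (f c) (g c) = true).card ↔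
      ¬ (Odd (s.filter fun c => f c = true).card ↔ Odd (s.filter fun c => g c = true).card) := by
  classical
  induction s using Finset.induction_on with
  | empty => simp
  | insert a s ha ih =>
    have h : ∀ k : ι → Bool, ((insert a s).filter fun c => k c = true).card =
        (s.filter fun c => k c = true).card + if k a = true then 1 else 0 := fun k => by
      rw [filter_insert]
      split_ifs
      · exact card_insert_of_notMem fun h => ha (mem_filter.1 h).1
      · rfl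
    rw [h f, h g, h fun c => xor (f c) (g c)]
    generalize (s.filter fun c => xor (f c) (g c) = true).card = A at ih ⊢
    generalize (s.filter fun c => f c = true).card = A1 at ih ⊢
    generalize (s.filter fun c => g c = true).card = A2 at ih ⊢
    simp only [Nat.odd_iff] at ih ⊢
    cases f a <;> cases g a <;> simp <;> omega

theorem hardT_spec {X : Type} [Fintype X] [DecidableEq X] [Nonempty X] (N q n B : ℕ) [NeZero q]
    (hq : q < N / 2) (hB : B * (q ^ 2 * Fintype.card X ^ 8 * 2) ≤ N / 2)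
    (e : (ZMod q × ZMod q) × Fin 4 ≃ Fin n) :
    ∃ inp : (Fin B × Eqn (ZMod q × ZMod q) X → Bool) → Fin N → Bool, Proj inp ∧
      (∀ z, (∀ j, (∃ y, ∀ u, z (j, u) = neg (tsS e) y u) ∨ ∀ u, z (j, u) = false) →
        hardT (Fintype.card X) (List.ofFn (inp z)) = false) ∧
      ∀ z, (∃ j p, ∀ u, z (j, u) = pos (tsS e) tsB p u) →
        hardT (Fintype.card X) (List.ofFn (inp z)) = true := by
  classical
  have hM : 0 < Fintype.card X := Fintype.card_pos
  obtain ⟨pt⟩ : Nonempty (X ≃ Fin (Fintype.card X)) := ⟨Fintype.equivFin X⟩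
  generalize Fintype.card X = M at hB hM pt ⊢
  have hq0 : 0 < q := Nat.pos_of_ne_zero (NeZero.ne q)
  have hn : 0 < q ^ 2 * M ^ 8 * 2 := by positivity
  have hBH : B ≤ N / 2 := (Nat.le_mul_of_pos_right B hn).trans hB
  let dec : ℕ → Eqn (ZMod q × ZMod q) X := fun i =>
    (langVtx M q (i / 2), fun c => pt.symm (langDig hM (i / 2) c), decide (i % 2 = 1))
  let w : (Fin B × Eqn (ZMod q × ZMod q) X → Bool) → ℕ → Bool := fun z k =>
    if k < N / 2 then decide (k = q) else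
      if h : (k - N / 2) / (q ^ 2 * M ^ 8 * 2) < B then
        z (⟨_, h⟩, dec ((k - N / 2) % (q ^ 2 * M ^ 8 * 2))) else false
  have w1 : ∀ z k, k < N / 2 → (w z k = true ↔ k = q) := fun z k hk => by
    simp only [w, if_pos hk, decide_eq_true_iff]
  have w2 : ∀ z i, w z (N / 2 + i) = true ↔
      ∃ h : i / (q ^ 2 * M ^ 8 * 2) < B, z (⟨_, h⟩, dec (i % (q ^ 2 * M ^ 8 * 2))) = true :=
    fun z i => by
      simp only [w, if_neg (Nat.not_lt.2 (Nat.le_add_right _ i)), Nat.add_sub_cancel_left]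
      split_ifs with h <;> simp [h]
  refine ⟨fun z k => w z k, fun k => ?_, fun z hz => ?_, ?_⟩
  · by_cases h1 : (k : ℕ) < N / 2
    · exact Or.inl ⟨_, fun z => if_pos h1⟩
    · by_cases h2 : (k - N / 2) / (q ^ 2 * M ^ 8 * 2) < B
      · exact Or.inr ⟨_, fun z => (if_neg h1).trans (dif_pos h2)⟩
      · exact Or.inl ⟨_, fun z => (if_neg h1).trans (dif_neg h2)⟩
  · unfold hardT
    rw [decide_eq_false_iff_not, not_not]
    have hy : ∀ j, ∃ y, ∀ u, z (j, u) = true → neg (tsS e) y u = true := fun j => by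
      rcases hz j with ⟨y, h⟩ | h
      · exact ⟨y, fun u hu => h u ▸ hu⟩
      · exact ⟨fun _ _ => false, fun u hu => by simp [h u] at hu⟩
    choose y hy using hy
    have hinj : Function.Injective fun p : Fin B × Fin n × X =>
        (langNum (e.symm p.2.1) * M + pt p.2.2) * (N / 2) + p.1 := by
      rintro ⟨j, k, a⟩ ⟨j', k', a'⟩ h
      obtain ⟨h0, h3⟩ := lang_pair (j.2.trans_le hBH) (j'.2.trans_le hBH) h
      obtain ⟨h1, h2⟩ := lang_pair (pt a).2 (pt a').2 h0
      exact Prod.ext (Fin.ext h3)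
        (Prod.ext (e.symm.injective (lang_num_inj h1)) (pt.injective (Fin.ext h2)))
    refine ⟨Function.extend (fun p : Fin B × Fin n × X =>
      (langNum (e.symm p.2.1) * M + pt p.2.2) * (N / 2) + p.1) (fun p => y p.1 p.2.1 p.2.2)
      fun _ => false, fun r hr => ?_⟩
    obtain ⟨q', i, h1, -, h3, h4, rfl⟩ := (lgA_mem _ _).1 hr
    obtain rfl := (w1 z q' h1).1 h3
    obtain ⟨h5, h6⟩ := (w2 z i).1 h4
    have h7 := hy _ _ h6
    simp only [neg, par, dec, beq_iff_eq, decide_eq_decide] at h7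
    rw [lgA_row hM e, h7]
    refine iff_of_eq (congrArg (fun s : Finset (Fin 8) => Odd s.card) (filter_congr fun c _ => ?_))
    have := hinj.extend_apply (fun p => y p.1 p.2.1 p.2.2) (fun _ => false)
      (⟨_, h5⟩, tsS e (langVtx M q' (i % (q' ^ 2 * M ^ 8 * 2) / 2)) c,
        pt.symm (langDig hM (i % (q' ^ 2 * M ^ 8 * 2) / 2) c))
    simp only [Equiv.apply_symm_apply] at this
    rw [this]
  · rintro z ⟨j, ⟨x, y⟩, hz⟩
    unfold hardT
    rw [decide_eq_true_iff]
    rintro ⟨Y, hY⟩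
    obtain ⟨u, hu⟩ := ts_unsat e fun k =>
      xor (Y ((langNum (e.symm k) * M + pt (x k)) * (N / 2) + j)) (y k (x k))
    obtain ⟨i, i1, i2, i3⟩ := lgA_idx hM u fun c => pt (x (tsS e u c))
    obtain ⟨β, hβ⟩ : ∃ β, β = xor (tsB u) (par (tsS e) y u fun c => x (tsS e u c)) := ⟨_, rfl⟩
    obtain ⟨t, t1, t2, t3⟩ : ∃ t, t < q ^ 2 * M ^ 8 * 2 ∧ t / 2 = i ∧ (t % 2 = 1 ↔ β = true) := by
      cases β
      · exact ⟨2 * i, by omega, by omega, by simp⟩
      · exact ⟨2 * i + 1, by omega, by omega, by simp⟩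
    have e1 : (j * (q ^ 2 * M ^ 8 * 2) + t) / (q ^ 2 * M ^ 8 * 2) = j := by
      rw [add_comm, Nat.add_mul_div_right _ _ hn, Nat.div_eq_of_lt t1, zero_add]
    have e2 : (j * (q ^ 2 * M ^ 8 * 2) + t) % (q ^ 2 * M ^ 8 * 2) = t := Nat.mul_add_mod_of_lt t1
    have e3 : j * (q ^ 2 * M ^ 8 * 2) + t < N / 2 := by
      have := Nat.mul_le_mul_right (q ^ 2 * M ^ 8 * 2) j.2
      rw [Nat.succ_mul] at this
      omega
    have h1 := hY _ ((lgA_mem _ _).2 ⟨q, _, hq, e3, (w1 z q hq).2 rfl,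
      (w2 z _).2 ⟨e1.trans_lt j.2, by
        rw [show (⟨_, e1.trans_lt j.2⟩ : Fin B) = j from Fin.ext e1, e2, hz]
        simp only [pos, dec, t2, i2, i3, Equiv.symm_apply_apply, t3, ← hβ]
        simp⟩, rfl⟩)
    rw [lgA_row hM e, e1, e2, t2, i2, i3, t3, hβ] at h1
    apply hu
    rw [lgA_xor, h1, par]
    cases tsB u <;> simp [-Nat.not_odd_iff_even]

end Pool.Agent.Lib.MP_8a52c3_lc.Neg
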