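import Pool.Agent.Lib.MP_8a52c3_lc.Neg.Defs
import Pool.Agent.Lib.MP_8a52c3_lc.Mono.LangP

/-! The hard language is monotone and in P. -/

open Finset
open scoped BigOperators

namespace Pool.Agent.Lib.MP_8a52c3_lc.Neg

open Mono

open Pool.Agent.Shared.PolyTime N68a2faeb in
theorem lp_rowT (M : ℕ) : IsPolyTime fun p : ℕ × ℕ × ℕ => rowT M p.1 p.2.1 p.2.2 := by
  have h := (lp_row M).comp
    (g := fun p : ℕ × ℕ × ℕ => (p.2.1, p.2.2 % (p.2.1 ^ 2 * M ^ 8 * 2) / 2)) (by fun_prop)
  unfold rowT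
  refine IsPolyTime.pair ?_ (by fun_prop)
  refine IsPolyTime.map (f := fun (p : ℕ × ℕ × ℕ) v =>
    v * p.1 + p.2.2 / (p.2.1 ^ 2 * M ^ 8 * 2)) (by fun_prop) ?_
  exact IsPolyTime.fst h

open Pool.Agent.Shared.PolyTime N68a2faeb in
theorem lp_rowsT (M : ℕ) : IsPolyTime (rowsT M) := by
  have := lp_rowT M
  unfold rowsT
  refine IsPolyTime.map (f := fun (w : List Bool) p =>
    rowT M (w.length / 2) (p / (w.length / 2)) (p % (w.length / 2))) ?_ ?_
  · exact this.comp (g := fun p : List Bool × ℕ =>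
      (p.1.length / 2, p.2 / (p.1.length / 2), p.2 % (p.1.length / 2))) (by fun_prop)
  · fun_prop

open Pool.Agent.Shared.PolyTime N68a2faeb in
theorem hardT_mem_P (M : ℕ) : hardT M ∈ N68a2faeb.P := by
  have h := xorSat_poly.comp (lp_rowsT M)
  have h2 : IsPolyTime fun w => !(open Classical in decide (XorSat (rowsT M w))) := by fun_prop
  exact h2.of_eq fun w => by simp [hardT]

theorem getD_mono {N : ℕ} (x y : Fin N → Bool) (h : ∀ i, x i = true → y i = true) (k : ℕ)
    (hk : (List.ofFn x).getD k false = true) : (List.ofFn y).getD k false = true := by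
  by_cases h1 : k < N
  · simp only [List.getD_eq_getElem?_getD, List.getElem?_ofFn, h1, dite_true, Option.getD_some]
      at hk ⊢
    exact h _ hk
  · simp [List.getD_eq_getElem?_getD, h1] at hk

theorem hardT_mono (M N : ℕ) (x y : Fin N → Bool) (h : ∀ i, x i = true → y i = true)
    (hx : hardT M (List.ofFn x) = true) : hardT M (List.ofFn y) = true := by
  simp only [hardT, decide_eq_true_eq] at hx ⊢
  rintro ⟨z, hz⟩
  refine hx ⟨z, fun r hr => hz r ?_⟩
  simp only [rowsT, List.mem_map, List.mem_filter, List.mem_range, List.length_ofFn,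
    Bool.and_eq_true] at hr ⊢
  obtain ⟨i, ⟨h1, h2, h3⟩, rfl⟩ := hr
  exact ⟨i, ⟨h1, getD_mono x y h _ h2, getD_mono x y h _ h3⟩, rfl⟩

end Pool.Agent.Lib.MP_8a52c3_lc.Neg
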