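import Pool.Agent.Lib.MP_8a52c3_lc.Neg.Chain
import Pool.Agent.Lib.MP_8a52c3_lc.Neg.Key
import Pool.Agent.Lib.MP_8a52c3_lc.Neg.Lang
import Pool.Agent.Lib.MP_8a52c3_lc.Neg.LangP
import Pool.Agent.Lib.MP_8a52c3_lc.Mono.Core

/-! Circuits with few negations for the hard language are large. -/

open Finset
open scoped BigOperators

namespace Pool.Agent.Lib.MP_8a52c3_lc.Neg

open Mono

/-- The lower bound at scale `q`. -/
theorem neg_scale : ∃ M : ℕ, 0 < M ∧ ∀ (N q S : ℕ) (T : Finset (Fin S))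
    (g : Fin S → (Fin N → Bool) → ℝ), 12 ≤ q →
    (2 ^ (T.card + 2) + 1) * (q ^ 2 * M ^ 8 * 2) ≤ N / 2 → Ngt T g →
    (∃ v, ∀ x, g v x = if hardT M (List.ofFn x) then 1 else 0) →
    (2 : ℝ) ^ (4 * q ^ 2 / 20) ≤
      4 * ((8 * (4 * q ^ 2) * M * (2 ^ (T.card + 2)) ^ 2 + 1 : ℕ) : ℝ) * (S + 1) := by
  obtain ⟨X, _, _, _, hX⟩ := core
  refine ⟨Fintype.card X, Fintype.card_pos, fun N q S T g hq hB hg hroot => ?_⟩
  have : NeZero q := ⟨by omega⟩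
  have e : (ZMod q × ZMod q) × Fin 4 ≃ Fin (4 * q ^ 2) :=
    Fintype.equivFinOfCardEq (by simp [ZMod.card]; ring)
  obtain ⟨σ, hσ, hv⟩ := ts_pseudo (by omega) e
  have hM : 0 < Fintype.card X := Fintype.card_pos
  have hqN : q < N / 2 := by
    have h1 : 1 ≤ Fintype.card X ^ 8 := Nat.one_le_pow _ _ hM
    have h2 : 0 < 2 ^ (T.card + 2) + 1 := Nat.succ_pos _
    have h3 : q ^ 2 * Fintype.card X ^ 8 * 2 ≤ N / 2 :=
      le_trans (Nat.le_mul_of_pos_left _ h2) hB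
    nlinarith
  obtain ⟨inp, hP, hf, ht⟩ := hardT_spec (X := X) N q _ (2 ^ (T.card + 2) + 1) hqN hB e
  obtain ⟨v0, hv0⟩ := hroot
  by_contra hcon
  rw [not_le] at hcon
  have hK : 0 < 2 ^ (T.card + 2) := by positivity
  have := chain (pos (X := X) (tsS e) tsB) (neg (X := X) (tsS e)) S (2 ^ (T.card + 2) + 1)
    (1 / ((2 ^ (T.card + 2) : ℕ) : ℝ))
    (fun g' hg' v => key (by positivity) (tsS e) tsB σ hv _
      (hX _ (by nlinarith) σ hσ) S _ hK hcon g' hg' v) T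
    (by push_cast; rw [one_div, inv_mul_cancel₀ (by positivity)])
    (fun v z => g v (inp z)) (hg.subst hP) v0
    (fun z hz => by rw [hv0, hf z hz]; simp)
    (fun z hz => by rw [hv0, ht z hz]; simp)
  omega

theorem neg_lower : ∃ M : ℕ, ∃ c : ℝ, 0 < c ∧ ∀ N ≥ 72, ∀ (S : ℕ) (T : Finset (Fin S))
    (g : Fin S → (Fin N → Bool) → ℝ), Ngt T g →
    (∃ v, ∀ x, g v x = if hardT M (List.ofFn x) then 1 else 0) →
    (2 : ℝ) ^ (c * N / 2 ^ T.card) ≤ S * N ^ 3 := by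
  obtain ⟨M, hM, h⟩ := neg_scale
  have hM8 : 0 < M ^ 8 := by positivity
  have hM8' : (0 : ℝ) < (M : ℝ) ^ 8 := by positivity
  refine ⟨M, 1 / (360 * (M : ℝ) ^ 8), by positivity, fun N hN S T g hg hroot => ?_⟩
  have hS : 1 ≤ S := by
    obtain ⟨v, -⟩ := hroot
    exact Nat.succ_le_of_lt (lt_of_le_of_lt (Nat.zero_le _) v.2)
  have hS' : (1 : ℝ) ≤ S := by exact_mod_cast hS
  have hN' : (72 : ℝ) ≤ N := by exact_mod_cast hN
  obtain ⟨a, ha⟩ : ∃ a : ℕ, a = 2 ^ T.card := ⟨_, rfl⟩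
  have a1 : 1 ≤ a := by rw [ha]; exact Nat.one_le_two_pow
  have a4 : 2 ^ (T.card + 2) = 4 * a := by rw [ha, pow_add]; ring
  obtain ⟨D, hD⟩ : ∃ D : ℕ, D = (4 * a + 1) * (M ^ 8 * 2) := ⟨_, rfl⟩
  have D0 : 0 < D := by rw [hD]; positivity
  obtain ⟨q, hq⟩ : ∃ q : ℕ, q = Nat.sqrt (N / 2 / D) := ⟨_, rfl⟩
  have q1 : q ^ 2 * D ≤ N / 2 := (Nat.le_div_iff_mul_le D0).1 (by rw [hq]; exact Nat.sqrt_le' _)
  have q2 : N / 2 < (q + 1) ^ 2 * D :=
    (Nat.div_lt_iff_lt_mul D0).1 (by rw [hq]; exact Nat.lt_succ_sqrt' _)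
  have D1 : D ≤ 10 * (a * M ^ 8) := by rw [hD]; nlinarith
  have n1 : N ≤ 30 * ((q + 1) ^ 2 * (a * M ^ 8)) := by
    have : (q + 1) ^ 2 * D ≤ (q + 1) ^ 2 * (10 * (a * M ^ 8)) := Nat.mul_le_mul_left _ D1
    have e : (q + 1) ^ 2 * (10 * (a * M ^ 8)) = 10 * ((q + 1) ^ 2 * (a * M ^ 8)) := by ring
    omega
  have ex : 1 / (360 * (M : ℝ) ^ 8) * N / 2 ^ T.card ≤ ((q : ℝ) + 1) ^ 2 / 12 := by
    have n1' : (N : ℝ) ≤ 30 * (((q : ℝ) + 1) ^ 2 * (2 ^ T.card * (M : ℝ) ^ 8)) := by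
      rw [ha] at n1
      exact_mod_cast n1
    rw [one_div, inv_mul_eq_div, div_div, div_le_div_iff₀ (by positivity) (by norm_num)]
    nlinarith
  by_cases hq12 : 12 ≤ q
  · have key := h N q S T g hq12 (by
      rw [a4]
      refine le_trans (le_of_eq ?_) q1
      rw [hD]
      ring) hg hroot
    have b1 : (q + 1) ^ 2 ≤ 12 * (4 * q ^ 2 / 20) := by
      have : 20 * (4 * q ^ 2 / 20) + 20 > 4 * q ^ 2 := by omega
      nlinarith
    have b2 : ((q : ℝ) + 1) ^ 2 / 12 ≤ ((4 * q ^ 2 / 20 : ℕ) : ℝ) := by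
      rw [div_le_iff₀ (by norm_num)]
      have : ((q : ℝ) + 1) ^ 2 ≤ 12 * ((4 * q ^ 2 / 20 : ℕ) : ℝ) := by exact_mod_cast b1
      linarith
    have b3 := Real.rpow_le_rpow_of_exponent_le (x := 2) one_le_two (ex.trans b2)
    rw [Real.rpow_natCast] at b3
    refine b3.trans (key.trans ?_)
    have M1 : M ≤ M ^ 8 := Nat.le_self_pow (by norm_num) M
    have c1 : 4 * q ^ 2 * M * (4 * a) ≤ N := by
      have : q ^ 2 * (4 * a * (M * 2)) ≤ q ^ 2 * D := by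
        rw [hD]
        exact Nat.mul_le_mul_left _ (Nat.mul_le_mul (by omega) (by omega))
      have e : 4 * q ^ 2 * M * (4 * a) = 2 * (q ^ 2 * (4 * a * (M * 2))) := by ring
      omega
    have c2 : 4 * a ≤ N := by
      have : 0 < 4 * q ^ 2 * M := by positivity
      exact le_trans (Nat.le_mul_of_pos_left _ this) c1
    have c3 : 8 * (4 * q ^ 2) * M * (2 ^ (T.card + 2)) ^ 2 + 1 ≤ 9 * N ^ 2 := by
      have : 4 * q ^ 2 * M * (4 * a) * (4 * a) ≤ N * N := Nat.mul_le_mul c1 c2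
      have e : 8 * (4 * q ^ 2) * M * (4 * a) ^ 2 = 8 * (4 * q ^ 2 * M * (4 * a) * (4 * a)) := by
        ring
      rw [a4, e]
      nlinarith
    have c4 : ((8 * (4 * q ^ 2) * M * (2 ^ (T.card + 2)) ^ 2 + 1 : ℕ) : ℝ) ≤ 9 * (N : ℝ) ^ 2 := by
      exact_mod_cast c3
    calc _ ≤ 4 * (9 * (N : ℝ) ^ 2) * (2 * S) := by gcongr; linarith
      _ = S * (72 * (N : ℝ) ^ 2) := by ring
      _ ≤ S * (N * (N : ℝ) ^ 2) := by gcongr
      _ = _ := by ring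
  · have b1 : (q : ℝ) + 1 ≤ 12 := by
      have : q + 1 ≤ 12 := by omega
      exact_mod_cast this
    have b2 : ((q : ℝ) + 1) ^ 2 / 12 ≤ ((12 : ℕ) : ℝ) := by
      have : ((q : ℝ) + 1) ^ 2 ≤ 12 ^ 2 := pow_le_pow_left₀ (by positivity) b1 2
      push_cast
      linarith
    have b3 := Real.rpow_le_rpow_of_exponent_le (x := 2) one_le_two (ex.trans b2)
    rw [Real.rpow_natCast] at b3
    refine b3.trans ?_
    have : (72 : ℝ) ^ 3 ≤ (N : ℝ) ^ 3 := pow_le_pow_left₀ (by norm_num) hN' 3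
    nlinarith

end Pool.Agent.Lib.MP_8a52c3_lc.Neg
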